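import Pool.Agent.H28.GN.T3

set_option autoImplicit false

open Finset

namespace Pool.Agent.H46.GN

open Pool.Agent.H28.GN

theorem bad_card (J c b H : ℕ) (hc : 0 < c) (hH : 0 < H) (ω ω' : Fin J → Bool) (hne : ω ≠ ω') :
    (((univ : Finset (Fin J → Bool → Fin H)).filter fun t =>
      dif (ps c (fun j e => (t j e : ℕ)) ω) (ps c (fun j e => (t j e : ℕ)) ω') < b).card : ℝ) ≤
    (2 * b / H) * (H : ℝ) ^ (2 * J) := by
  classical
  obtain ⟨j0, hj0⟩ : ∃ j, ω j ≠ ω' j := by
    by_contra h
    push Not at h
    exact hne (funext h)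
  set e0 := ω j0 with he0
  let z0 : Fin H := ⟨0, hH⟩
  let f : (Fin J → Bool → Fin H) → (Fin J → Bool → Fin H) := fun t =>
    Function.update t j0 (Function.update (t j0) e0 z0)
  let Z : Finset (Fin J → Bool → Fin H) := univ.filter fun t => t j0 e0 = z0
  set B := (univ : Finset (Fin J → Bool → Fin H)).filter fun t =>
      dif (ps c (fun j e => (t j e : ℕ)) ω) (ps c (fun j e => (t j e : ℕ)) ω') < b with hB
  -- the coordinates other than (j0, e0) agree
  have hag : ∀ t t' : Fin J → Bool → Fin H, f t = f t' → ∀ j e, ¬ (j = j0 ∧ e = e0) →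
      t j e = t' j e := by
    intro t t' h j e hje
    have h1 := congrFun (congrFun h j) e
    by_cases hj : j = j0
    · subst hj
      have he : e ≠ e0 := fun h => hje ⟨rfl, h⟩
      simp only [f, Function.update_self, Function.update_of_ne he] at h1
      exact h1
    · simp only [f, Function.update_of_ne hj] at h1
      exact h1
  have hps : ∀ t t' : Fin J → Bool → Fin H, f t = f t' →
      ps c (fun j e => (t j e : ℕ)) ω' = ps c (fun j e => (t' j e : ℕ)) ω' := by
    intro t t' h
    unfold ps
    congr 1
    apply Finset.sum_congr rfl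
    intro j _
    have := hag t t' h j (ω' j) (fun hh => hj0 (by rw [← hh.2, hh.1]))
    exact congrArg Fin.val this
  have h1 : B.card ≤ 2 * b * Z.card := by
    apply Finset.card_le_mul_card_image_of_maps_to (f := f)
    · intro t _
      simp [Z, f]
    · intro z _
      have hr : (range (2 * b)).card = 2 * b := card_range _
      rw [← hr]
      apply Finset.card_le_card_of_injOn
        (fun t => ps c (fun j e => (t j e : ℕ)) ω + b - ps c (fun j e => (t j e : ℕ)) ω')
      · intro t ht
        rw [Finset.mem_coe, Finset.mem_filter, hB, Finset.mem_filter] at ht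
        have h2 := ht.1.2
        unfold dif at h2
        rw [Finset.mem_coe, Finset.mem_range]
        change ps c (fun j e => (t j e : ℕ)) ω + b - ps c (fun j e => (t j e : ℕ)) ω' < 2 * b
        omega
      · intro t ht t' ht' htt
        rw [Finset.mem_coe, Finset.mem_filter, hB, Finset.mem_filter] at ht ht'
        have hff : f t = f t' := ht.2.trans ht'.2.symm
        have h2 := ht.1.2
        have h3 := ht'.1.2
        have h4 := hps t t' hff
        unfold dif at h2 h3
        have h5 : ps c (fun j e => (t j e : ℕ)) ω = ps c (fun j e => (t' j e : ℕ)) ω := by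
          simp only at htt
          omega
        unfold ps at h5
        have h6 := Nat.eq_of_mul_eq_mul_left hc h5
        rw [← Finset.add_sum_erase _ _ (mem_univ j0), ← Finset.add_sum_erase _ _ (mem_univ j0)] at h6
        have h7 : ∑ x ∈ univ.erase j0, ((t x (ω x) : Fin H) : ℕ) =
            ∑ x ∈ univ.erase j0, ((t' x (ω x) : Fin H) : ℕ) := by
          apply Finset.sum_congr rfl
          intro j hj
          rw [hag t t' hff j (ω j) (fun hh => (Finset.mem_erase.1 hj).1 hh.1)]
        have h8 : ((t j0 (ω j0) : Fin H) : ℕ) = ((t' j0 (ω j0) : Fin H) : ℕ) := by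
          simp only at h6
          omega
        funext j e
        by_cases hje : j = j0 ∧ e = e0
        · rw [hje.1, hje.2]
          exact Fin.ext h8
        · exact hag t t' hff j e hje
  have h2 : Z.card * H ≤ H ^ (2 * J) := by
    have hcard : Fintype.card (Fin J → Bool → Fin H) = H ^ (2 * J) := by
      simp [pow_mul]
    have hZ : Z.card * H = (Z ×ˢ (univ : Finset (Fin H))).card := by
      rw [Finset.card_product, Finset.card_univ, Fintype.card_fin]
    rw [hZ, ← hcard, ← Finset.card_univ]
    apply Finset.card_le_card_of_injOn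
      (fun p => Function.update p.1 j0 (Function.update (p.1 j0) e0 p.2))
    · intro p _
      exact Finset.mem_coe.2 (mem_univ _)
    · rintro ⟨t, x⟩ hp ⟨t', x'⟩ hp' h
      rw [Finset.mem_coe, Finset.mem_product] at hp hp'
      have ht : t j0 e0 = z0 := (Finset.mem_filter.1 hp.1).2
      have ht' : t' j0 e0 = z0 := (Finset.mem_filter.1 hp'.1).2
      simp only at h
      have hx := congrFun (congrFun h j0) e0
      simp only [Function.update_self] at hx
      have htt : t = t' := by
        funext j e
        have h1 := congrFun (congrFun h j) e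
        by_cases hj : j = j0
        · subst hj
          by_cases he : e = e0
          · rw [he, ht, ht']
          · simp only [Function.update_self, Function.update_of_ne he] at h1
            exact h1
        · simp only [Function.update_of_ne hj] at h1
          exact h1
      rw [htt, hx]
  have hHr : (0 : ℝ) < H := by exact_mod_cast hH
  have h1r : (B.card : ℝ) ≤ 2 * b * Z.card := by exact_mod_cast h1
  have h2r : (Z.card : ℝ) * H ≤ (H : ℝ) ^ (2 * J) := by exact_mod_cast h2
  have h3r : (Z.card : ℝ) ≤ (H : ℝ) ^ (2 * J) / H := by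
    rw [le_div_iff₀ hHr]
    exact h2r
  calc (B.card : ℝ) ≤ 2 * b * Z.card := h1r
    _ ≤ 2 * b * ((H : ℝ) ^ (2 * J) / H) := mul_le_mul_of_nonneg_left h3r (by positivity)
    _ = _ := by ring

theorem pf_ACT : T_ACT := by
  classical
  intro J c b H hc hH
  have hsub : ((univ : Finset (Fin J → Bool → Fin H)).filter fun t => ¬ Act J c b H t) ⊆
      ((univ : Finset (Fin J → Bool)).offDiag).biUnion fun p =>
        (univ : Finset (Fin J → Bool → Fin H)).filter fun t =>
      dif (ps c (fun j e => (t j e : ℕ)) p.1) (ps c (fun j e => (t j e : ℕ)) p.2) < b := by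
    intro t ht
    have h := (Finset.mem_filter.1 ht).2
    unfold Act at h
    push Not at h
    obtain ⟨ω, ω', hne, hlt⟩ := h
    rw [Finset.mem_biUnion]
    exact ⟨(ω, ω'), Finset.mem_offDiag.2 ⟨mem_univ _, mem_univ _, hne⟩,
      Finset.mem_filter.2 ⟨mem_univ _, hlt⟩⟩
  have h1 := (Finset.card_le_card hsub).trans Finset.card_biUnion_le
  have h2 : (((univ : Finset (Fin J → Bool → Fin H)).filter fun t => ¬ Act J c b H t).card : ℝ) ≤
      ∑ p ∈ ((univ : Finset (Fin J → Bool)).offDiag),
        (((univ : Finset (Fin J → Bool → Fin H)).filter fun t =>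
      dif (ps c (fun j e => (t j e : ℕ)) p.1) (ps c (fun j e => (t j e : ℕ)) p.2) < b).card : ℝ) := by
    exact_mod_cast h1
  have h3 : ∑ p ∈ ((univ : Finset (Fin J → Bool)).offDiag),
        (((univ : Finset (Fin J → Bool → Fin H)).filter fun t =>
      dif (ps c (fun j e => (t j e : ℕ)) p.1) (ps c (fun j e => (t j e : ℕ)) p.2) < b).card : ℝ) ≤
      ∑ _p ∈ ((univ : Finset (Fin J → Bool)).offDiag), (2 * b / H) * (H : ℝ) ^ (2 * J) := by
    apply Finset.sum_le_sum
    rintro ⟨ω, ω'⟩ hp
    exact bad_card J c b H hc hH ω ω' (Finset.mem_offDiag.1 hp).2.2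
  rw [Finset.sum_const, nsmul_eq_mul] at h3
  have h4 : (((univ : Finset (Fin J → Bool)).offDiag).card : ℝ) ≤ 4 ^ J := by
    have : ((univ : Finset (Fin J → Bool)).offDiag).card ≤ 4 ^ J := by
      rw [Finset.offDiag_card, Finset.card_univ]
      simp only [Fintype.card_fun, Fintype.card_bool, Fintype.card_fin]
      calc 2 ^ J * 2 ^ J - 2 ^ J ≤ 2 ^ J * 2 ^ J := Nat.sub_le _ _
        _ = 4 ^ J := by rw [← mul_pow]; norm_num
    exact_mod_cast this
  have h5 : (0 : ℝ) ≤ (2 * b / H) * (H : ℝ) ^ (2 * J) := by positivity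
  calc _ ≤ _ := h2
    _ ≤ _ := h3
    _ ≤ 4 ^ J * ((2 * b / H) * (H : ℝ) ^ (2 * J)) := mul_le_mul_of_nonneg_right h4 h5
    _ = _ := by ring

end Pool.Agent.H46.GN
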